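import Pool.Agent.Lib.MP_1ece31_lc.BarTop
import Pool.Agent.Lib.MP_1ece31_lc.Heis

namespace Pool.Agent.Results.MP_1ece31_lc.Answer

open Pool.Agent.Lib.MP_1ece31_lc
open scoped Manifold ContDiff

theorem result :
    (∃ (E : Type) (_ : NormedAddCommGroup E) (_ : NormedSpace ℝ E) (_ : FiniteDimensional ℝ E)
      (_ : CompleteSpace E) (G : Type) (_ : Group G) (_ : TopologicalSpace G) (_ : T2Space G)
      (_ : SecondCountableTopology G) (_ : ChartedSpace E G) (_ : LieGroup 𝓘(ℝ, E) ∞ G)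
      (_ : LieGroup 𝓘(ℝ, E) (minSmoothness ℝ 3) G), 0 < Module.finrank ℝ E ∧
      (∃ r, IsRank E G r) ∧ ∀ r, IsRank E G r → lieExponent E G r < 3) ∧
    ∀ (E : Type) [NormedAddCommGroup E] [NormedSpace ℝ E] [FiniteDimensional ℝ E]
      [CompleteSpace E] (G : Type) [Group G] [TopologicalSpace G] [ChartedSpace E G]
      [LieGroup 𝓘(ℝ, E) ∞ G] [LieGroup 𝓘(ℝ, E) (minSmoothness ℝ 3) G] (r : ℕ),
      (r ≤ lieIndex (GroupLieAlgebra 𝓘(ℝ, E) G) ∨
        (LieAlgebra.HasCentralRadical ℝ (GroupLieAlgebra 𝓘(ℝ, E) G) ∧ IsRank E G r)) →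
      3 ≤ lieExponent E G r :=
  ⟨heis_main 3 (by norm_num), fun _ _ _ _ _ _ _ _ _ _ _ r hr => barrier r hr⟩

end Pool.Agent.Results.MP_1ece31_lc.Answer
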