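import Pool.Agent.Lib.MP_1ece31_lc.BarTop

namespace Pool.Agent.Results.MP_1ece31_lc.Barrier

open Pool.Agent.Lib.MP_1ece31_lc
open scoped Manifold ContDiff

theorem result {E : Type*} [NormedAddCommGroup E] [NormedSpace ℝ E] [FiniteDimensional ℝ E]
    [CompleteSpace E] {G : Type*} [Group G] [TopologicalSpace G] [ChartedSpace E G]
    [LieGroup 𝓘(ℝ, E) ∞ G] [LieGroup 𝓘(ℝ, E) (minSmoothness ℝ 3) G] (r : ℕ)
    (hr : r ≤ lieIndex (GroupLieAlgebra 𝓘(ℝ, E) G) ∨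
      (LieAlgebra.HasCentralRadical ℝ (GroupLieAlgebra 𝓘(ℝ, E) G) ∧ IsRank E G r)) :
    3 ≤ lieExponent E G r :=
  barrier r hr

end Pool.Agent.Results.MP_1ece31_lc.Barrier
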